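import Mathlib
import Pool.Agent.Y68.CS.Chp

/-!
Maps on matrices over an algebraically closed field of characteristic zero which preserve the nonzero
eigenvalues of commutators.
-/

open Matrix

namespace Pool.Agent.Results.MP_fda97a_al.NonzeroSpectrum

/-- Let `K` be any algebraically closed field of characteristic zero, `z` a square root of `-1` in `K`
and `φ` any map from the `n × n` matrices over `K` to themselves (no linearity, continuity,
injectivity or surjectivity assumed).  The following are equivalent: the commutators `[φ T, φ S]` and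
`[T, S]` have the same characteristic polynomial for all `T, S`; they have the same spectrum for all
`T, S`; they have the same nonzero eigenvalues for all `T, S`; and `φ` has the explicit form
`φ T = ξ T • A T A⁻¹ + η T • 1`, or `φ T = (z ξ T) • A Tᵀ A⁻¹ + η T • 1`, with an invertible matrix
`A`, an arbitrary function `η` and a function `ξ` with values `1` and `-1` which is constant on the
matrices that satisfy no equation `(T - r)^2 = s` with scalars `r, s`. -/
theorem result (K : Type*) [Field K] [IsAlgClosed K] [CharZero K] (z : K) (hz : z * z = -1) (n : ℕ)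
    (φ : Matrix (Fin n) (Fin n) K → Matrix (Fin n) (Fin n) K) :
    List.TFAE [
      ∀ T S : Matrix (Fin n) (Fin n) K,
        (φ T * φ S - φ S * φ T).charpoly = (T * S - S * T).charpoly,
      ∀ T S : Matrix (Fin n) (Fin n) K,
        spectrum K (φ T * φ S - φ S * φ T) = spectrum K (T * S - S * T),
      ∀ T S : Matrix (Fin n) (Fin n) K, ∀ l : K, l ≠ 0 →
        (l ∈ spectrum K (φ T * φ S - φ S * φ T) ↔ l ∈ spectrum K (T * S - S * T)),
      ∃ (A : (Matrix (Fin n) (Fin n) K)ˣ) (ξ η : Matrix (Fin n) (Fin n) K → K),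
        (∀ T, ξ T = 1 ∨ ξ T = -1) ∧
        (∀ T S : Matrix (Fin n) (Fin n) K,
          (¬ ∃ r s : K, (T - r • (1 : Matrix (Fin n) (Fin n) K)) ^ 2 =
            s • (1 : Matrix (Fin n) (Fin n) K)) →
          (¬ ∃ r s : K, (S - r • (1 : Matrix (Fin n) (Fin n) K)) ^ 2 =
            s • (1 : Matrix (Fin n) (Fin n) K)) →
          ξ T = ξ S) ∧
        ((∀ T, φ T = ξ T • (A.val * T * (A⁻¹).val) + η T • (1 : Matrix (Fin n) (Fin n) K)) ∨
         (∀ T, φ T = (z * ξ T) • (A.val * Tᵀ * (A⁻¹).val) +
            η T • (1 : Matrix (Fin n) (Fin n) K)))] := by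
  have hq : ∀ T : Matrix (Fin n) (Fin n) K, Pool.Agent.Y68.CS.Quad T ↔
      ∃ r s : K, (T - r • (1 : Matrix (Fin n) (Fin n) K)) ^ 2 =
        s • (1 : Matrix (Fin n) (Fin n) K) := by
    intro T
    simp only [Pool.Agent.Y68.CS.Quad, sq]
  tfae_have 1 → 2 := by
    intro h T S
    ext l
    rw [Matrix.mem_spectrum_iff_isRoot_charpoly, Matrix.mem_spectrum_iff_isRoot_charpoly, h T S]
  tfae_have 2 → 3 := by
    intro h T S l _
    rw [h T S]
  tfae_have 3 → 4 := by
    intro h
    have hp : Pool.Agent.Y68.CS.Pres φ := by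
      intro T S
      ext l
      rw [Pool.Agent.Y68.CS.mem_sp0, Pool.Agent.Y68.CS.mem_sp0]
      constructor
      · rintro ⟨h1, h2⟩
        exact ⟨(h T S l h2).mp h1, h2⟩
      · rintro ⟨h1, h2⟩
        exact ⟨(h T S l h2).mpr h1, h2⟩
    obtain ⟨A, ξ, η, h1, h2, h3⟩ :=
      (Pool.Agent.Y68.CS.form_iff z hz).mp (Pool.Agent.Y68.CS.form_of_pres hp)
    refine ⟨A, ξ, η, h1, ?_, h3⟩
    intro T S hT hS
    exact h2 T S (fun hc => hT ((hq T).mp hc)) (fun hc => hS ((hq S).mp hc))
  tfae_have 4 → 1 := by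
    rintro ⟨A, ξ, η, h1, h2, h3⟩
    apply Pool.Agent.Y68.CS.charpoly_of_form
    rw [Pool.Agent.Y68.CS.form_iff z hz]
    refine ⟨A, ξ, η, h1, ?_, h3⟩
    intro T S hT hS
    exact h2 T S (fun hc => hT ((hq T).mpr hc)) (fun hc => hS ((hq S).mpr hc))
  tfae_finish

end Pool.Agent.Results.MP_fda97a_al.NonzeroSpectrum
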